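import Pool.Agent.H68.SymDec.Local

/-!
# MP_d17b60_al, Q1: uniqueness of the symmetric decomposition for `h₀ = 2`

Let `A = k[[x,y]]/J` be an Artinian Gorenstein local ring and `I` an ideal of `A` with
`ℓ(A/I) = 2`.  We prove that the Hilbert function of `G(I) = ⨁ I^n/I^(n+1)` determines the
symmetric decomposition `(H(a))_a` attached to `(A, I)`.

The proof: `ℓ(A/I) = 2` forces `𝔪 = (x, y)`, `I = (x, y²)`.  With `F^w` the ideal generated by the
monomials `x^i y^j`, `2 i + j ≥ w`, one has `F^(2n) = I^n`, and the ranks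
`R(i,l) = dim F^i - dim F^i ∩ (0 : F^l)` of the pairings `F^i × F^l → k` satisfy a system of
inequalities (module `Numeric`) which forces `R(2i, 2l)` to be a function of the numbers
`R(2i, 0) - R(2i+2, 0) = ℓ(I^i/I^(i+1))` (module `Unique`).
-/

open Module IsLocalRing

namespace Pool.Agent.Results.MP_d17b60_al.UniqueDecomposition

section SubQuot

variable {A M : Type*} [CommRing A] [AddCommGroup M] [Module A M]

/-- `ℓ_A(Q / P)`, for submodules `P ≤ Q` of an `A`-module. -/
noncomputable def lengthQuot (P Q : Submodule A M) : ℕ∞ :=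
  Module.length A (↥Q ⧸ P.submoduleOf Q)

/-- For `P ≤ E ≤ Q` the submodule `E / P` of `Q / P`. -/
def subQuot (P E Q : Submodule A M) : Submodule A (↥Q ⧸ P.submoduleOf Q) :=
  (E.submoduleOf Q).map (P.submoduleOf Q).mkQ

/-- `ℓ_A((E / P) / (E' / P))` for submodules `P ≤ E' ≤ E ≤ Q` of an `A`-module, where `E / P` and
`E' / P` are taken as submodules of `Q / P`. -/
noncomputable def lengthQuotQuot (P E' E Q : Submodule A M) : ℕ∞ :=
  lengthQuot (subQuot P E' Q) (subQuot P E Q)

end SubQuot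

section Defs

variable {A : Type*} [CommRing A]

/-- `A` is an Artinian Gorenstein local ring: an Artinian local ring whose socle
`(0 : 𝔪)` has length one. -/
def IsArtinianGorensteinLocal (A : Type*) [CommRing A] : Prop :=
  IsArtinianRing A ∧
    ∃ _ : IsLocalRing A, Module.length A (Submodule.annihilator (maximalIdeal A)) = 1

/-- `u` is the end degree of `I`: `I^u ≠ 0` and `I^(u+1) = 0`. -/
def IsEndDegree (I : Ideal A) (u : ℕ) : Prop := I ^ u ≠ ⊥ ∧ I ^ (u + 1) = ⊥

/-- The Hilbert function `HF(G(I))_i = ℓ_A(I^i / I^(i+1))`. -/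
noncomputable def HF (I : Ideal A) (i : ℕ) : ℕ∞ := lengthQuot (I ^ (i + 1)) (I ^ i)

/-- The ideal `(0 : I^(u+1-a-i)) ∩ I^i + I^(i+1)`, so that `C(a)_i = Cnum I u a i / I^(i+1)`, a
submodule of `G(I)_i = I^i / I^(i+1)`.  The subtraction is truncated, so that `(0 : I^m)` is
`(0 : A) = 0` for `m ≤ 0`; in particular `C(u+1) = 0`. -/
def Cnum (I : Ideal A) (u a i : ℕ) : Ideal A :=
  Submodule.annihilator (I ^ (u + 1 - a - i)) ⊓ I ^ i ⊔ I ^ (i + 1)

/-- `H(a)_i = ℓ_A(Q(a)_i)`, where `Q(a)_i = C(a)_i / C(a+1)_i` and `C(a)_i` is the submodule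
`((0 : I^(u+1-a-i)) ∩ I^i + I^(i+1)) / I^(i+1)` of `G(I)_i = I^i / I^(i+1)`. -/
noncomputable def H (I : Ideal A) (u a i : ℕ) : ℕ∞ :=
  lengthQuotQuot (I ^ (i + 1)) (Cnum I u (a + 1) i) (Cnum I u a i) (I ^ i)

end Defs

section Compute

open Pool.Agent.H68.SymDec

variable {k A : Type*} [Field k] [CommRing A] [Algebra k A] [IsLocalRing A]
  [FiniteDimensional k A]

theorem length_ideal (hres : ∀ a : A, ∃ c : k, a - algebraMap k A c ∈ maximalIdeal A)
    (P : Ideal A) : Module.length A P = (finrank k (P.restrictScalars k) : ℕ) :=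
  length_eq_finrank hres P

theorem length_C (hres : ∀ a : A, ∃ c : k, a - algebraMap k A c ∈ maximalIdeal A)
    {x y : A} {I : Ideal A} (hI : I = Ideal.span {x, y ^ 2}) (u a i : ℕ) :
    Module.length A (subQuot (I ^ (i + 1)) (Cnum I u a i) (I ^ i)) =
      ((D k x y (2 * i) (2 * (u + 1 - a - i)) - D k x y (2 * (i + 1)) (2 * (u + 1 - a - i)) : ℕ)
        : ℕ∞) := by
  set m := u + 1 - a - i with hm
  have hP : ∀ n, I ^ n = F x y (2 * n) := fun n => by rw [F_even, hI]
  have hle : I ^ (i + 1) ≤ I ^ i := Ideal.pow_le_pow_right (Nat.le_succ i)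
  have h1 := length_map_mkQ (P := I ^ (i + 1))
    (E := (I ^ m).annihilator ⊓ I ^ i ⊔ I ^ (i + 1)) (Q := I ^ i) le_sup_right
    (sup_le inf_le_right hle)
  rw [length_ideal hres, length_ideal hres] at h1
  have h2 := Submodule.finrank_sup_add_finrank_inf_eq
    (((I ^ m).annihilator ⊓ I ^ i : Ideal A).restrictScalars k) ((I ^ (i + 1)).restrictScalars k)
  have e1 : ((I ^ m).annihilator ⊓ I ^ i : Ideal A).restrictScalars k ⊔
      (I ^ (i + 1)).restrictScalars k =
      ((I ^ m).annihilator ⊓ I ^ i ⊔ I ^ (i + 1) : Ideal A).restrictScalars k := by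
    ext z
    rw [Submodule.restrictScalars_mem, Submodule.mem_sup, Submodule.mem_sup]
    rfl
  have e2 : finrank k (((I ^ m).annihilator ⊓ I ^ i : Ideal A).restrictScalars k) =
      D k x y (2 * i) (2 * m) := by
    unfold D
    rw [← hP, ← hP, inf_comm]
    rfl
  have e3 : finrank k (((I ^ m).annihilator ⊓ I ^ i : Ideal A).restrictScalars k ⊓
      (I ^ (i + 1)).restrictScalars k : Submodule k A) =
      D k x y (2 * (i + 1)) (2 * m) := by
    unfold D
    rw [← hP, ← hP]
    have : ((I ^ m).annihilator ⊓ I ^ i : Ideal A).restrictScalars k ⊓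
      (I ^ (i + 1)).restrictScalars k = (I ^ (i + 1)).restrictScalars k ⊓
        ((I ^ m).annihilator).restrictScalars k := by
      ext z
      simp only [Submodule.mem_inf, Submodule.restrictScalars_mem]
      constructor
      · rintro ⟨⟨h1, _⟩, h3⟩
        exact ⟨h3, h1⟩
      · rintro ⟨h1, h2⟩
        exact ⟨⟨h2, hle h1⟩, h1⟩
    rw [this]
  rw [e1, e2, e3] at h2
  change Module.length A (subQuot (I ^ (i + 1)) (Cnum I u a i) (I ^ i)) + _ = _ at h1
  have h3 : Module.length A (subQuot (I ^ (i + 1)) (Cnum I u a i) (I ^ i)) ≠ ⊤ := by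
    intro h
    rw [h, top_add] at h1
    exact ENat.natCast_ne_top _ h1.symm
  obtain ⟨n, hn⟩ := ENat.ne_top_iff_exists.1 h3
  rw [← hn] at h1 ⊢
  norm_cast at h1 ⊢
  omega

omit [IsLocalRing A] in
theorem C_anti (I : Ideal A) (u a i : ℕ) :
    subQuot (I ^ (i + 1)) (Cnum I u (a + 1) i) (I ^ i) ≤
      subQuot (I ^ (i + 1)) (Cnum I u a i) (I ^ i) := by
  apply Submodule.map_mono
  apply Submodule.comap_mono
  refine sup_le_sup_right (inf_le_inf_right _ (Submodule.annihilator_mono ?_)) _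
  exact Ideal.pow_le_pow_right (by omega)

theorem length_H (hres : ∀ a : A, ∃ c : k, a - algebraMap k A c ∈ maximalIdeal A)
    {x y : A} {I : Ideal A} (hI : I = Ideal.span {x, y ^ 2}) (u a i : ℕ) :
    H I u a i =
      ((D k x y (2 * i) (2 * (u + 1 - a - i)) - D k x y (2 * (i + 1)) (2 * (u + 1 - a - i)) -
        (D k x y (2 * i) (2 * (u + 1 - (a + 1) - i)) -
          D k x y (2 * (i + 1)) (2 * (u + 1 - (a + 1) - i))) : ℕ) : ℕ∞) := by
  have h1 := length_quot_add (C_anti I u a i)
  rw [length_C hres hI, length_C hres hI] at h1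
  change H I u a i + _ = _ at h1
  have h3 : H I u a i ≠ ⊤ := by
    intro h
    rw [h, top_add] at h1
    exact ENat.natCast_ne_top _ h1.symm
  obtain ⟨n, hn⟩ := ENat.ne_top_iff_exists.1 h3
  rw [← hn] at h1 ⊢
  norm_cast at h1 ⊢
  omega

omit [IsLocalRing A] [FiniteDimensional k A] in
theorem R_zero_right {x y : A} (i : ℕ) :
    R k x y i 0 = finrank k ((F x y i).restrictScalars k) := by
  have : D k x y i 0 = 0 := by
    unfold D
    rw [F_zero, Submodule.annihilator_top, Module.annihilator_eq_bot.2 inferInstance]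
    have : (F x y i).restrictScalars k ⊓ (⊥ : Ideal A).restrictScalars k = ⊥ := by
      rw [Submodule.restrictScalars_bot, inf_bot_eq]
    rw [this, finrank_bot]
  unfold R
  rw [this, Nat.sub_zero]

theorem length_HF (hres : ∀ a : A, ∃ c : k, a - algebraMap k A c ∈ maximalIdeal A)
    {x y : A} {I : Ideal A} (hI : I = Ideal.span {x, y ^ 2}) (i : ℕ) :
    HF I i = ((R k x y (2 * i) 0 - R k x y (2 * (i + 1)) 0 : ℕ) : ℕ∞) := by
  have hP : ∀ n, I ^ n = F x y (2 * n) := fun n => by rw [F_even, hI]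
  have h1 := length_quot_add (Ideal.pow_le_pow_right (Nat.le_succ i) : I ^ (i + 1) ≤ I ^ i)
  rw [length_ideal hres, length_ideal hres] at h1
  rw [R_zero_right, R_zero_right, ← hP, ← hP]
  change HF I i + _ = _ at h1
  have h3 : HF I i ≠ ⊤ := by
    intro h
    rw [h, top_add] at h1
    exact ENat.natCast_ne_top _ h1.symm
  obtain ⟨n, hn⟩ := ENat.ne_top_iff_exists.1 h3
  rw [← hn] at h1 ⊢
  norm_cast at h1 ⊢
  omega

omit [IsLocalRing A] [Field k] [Algebra k A] [FiniteDimensional k A] in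
theorem length_quot_of_HF [IsArtinianRing A] {I : Ideal A} (h : HF I 0 = 2) :
    Module.length A (A ⧸ I) = 2 := by
  have h1 := length_quot_add (Ideal.pow_le_pow_right (Nat.le_succ 0) : I ^ (0 + 1) ≤ I ^ 0)
  change HF I 0 + _ = _ at h1
  have e0 : Module.length A ↥(I ^ 0) = Module.length A A := by
    rw [pow_zero, Ideal.one_eq_top, Module.length_top]
  have e1 : Module.length A ↥(I ^ (0 + 1)) = Module.length A I := by
    rw [zero_add, pow_one]
  rw [e0, e1, h] at h1
  have h2 := Module.length_eq_add_of_exact (Submodule.subtype I) (Submodule.mkQ I)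
    (Submodule.subtype_injective _) (Submodule.mkQ_surjective _)
    (by rw [LinearMap.exact_iff, Submodule.range_subtype, Submodule.ker_mkQ])
  rw [h2, add_comm] at h1
  have h3 : Module.length A I ≠ ⊤ := Module.length_ne_top
  exact (ENat.add_right_injective_of_ne_top h3 h1).symm

end Compute

section Final

open Pool.Agent.H68.SymDec

/-- The data extracted from a pair `(A, I)`. -/
theorem extract {k A : Type*} [Field k] [CommRing A] [Algebra k A] [IsLocalRing A]
    [IsArtinianRing A] (hsoc : Module.length A (Submodule.annihilator (maximalIdeal A)) = 1)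
    (hres : ∀ a : A, ∃ c : k, a - algebraMap k A c ∈ maximalIdeal A)
    {w₁ w₂ : A} (hm : maximalIdeal A = Ideal.span {w₁, w₂}) {I : Ideal A} {u : ℕ}
    (hu : IsEndDegree I u) (h0 : HF I 0 = 2) :
    ∃ R : ℕ → ℕ → ℕ, RSys R ∧
      (∀ i, HF I i = ((R (2 * i) 0 - R (2 * (i + 1)) 0 : ℕ) : ℕ∞)) ∧
      (∀ n, I ^ n = ⊥ ↔ R (2 * n) 0 = 0) ∧
      ∀ a i, H I u a i =
        ((R (2 * i) 0 - R (2 * i) (2 * (u + 1 - a - i)) -
          (R (2 * (i + 1)) 0 - R (2 * (i + 1)) (2 * (u + 1 - a - i))) -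
          (R (2 * i) 0 - R (2 * i) (2 * (u + 1 - (a + 1) - i)) -
          (R (2 * (i + 1)) 0 - R (2 * (i + 1)) (2 * (u + 1 - (a + 1) - i)))) : ℕ) : ℕ∞) := by
  have hfin := finite_of_artinian hres
  obtain ⟨x, y, hmx, hI⟩ := exists_shape hres hm (length_quot_of_HF h0)
  obtain ⟨φ, hφ⟩ := exists_functional (k := k) (Module.length_eq_one_iff.1 hsoc)
  have hP : ∀ n, I ^ n = F x y (2 * n) := fun n => by rw [F_even, hI]
  have hN : F x y (2 * (u + 1)) = ⊥ := by rw [← hP]; exact hu.2
  have hD : ∀ i l, D k x y i l = R k x y i 0 - R k x y i l := by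
    intro i l
    rw [R_zero_right]
    have := D_le (k := k) (x := x) (y := y) i l
    unfold R
    omega
  refine ⟨R k x y, rsys (by rwa [← hmx]) hN hφ, fun i => length_HF hres hI i, ?_, ?_⟩
  · intro n
    rw [R_zero_right, ← hP]
    constructor
    · intro h
      rw [h, Submodule.restrictScalars_bot, finrank_bot]
    · intro h
      have := Submodule.finrank_eq_zero.1 h
      rwa [Submodule.restrictScalars_eq_bot_iff] at this
  · intro a i
    rw [length_H hres hI]
    simp only [hD]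

/-- **Uniqueness of the symmetric decomposition for `h₀ = 2`** (positive answer to Q1).

Let `A = k[[x,y]]/J` and `A' = k'[[x,y]]/J'` be Artinian Gorenstein local rings, `I ⊂ A` and
`I' ⊂ A'` ideals of end degrees `u`, `u'` whose associated graded rings have the same Hilbert
function `H` with `h₀ = 2`.  Then `u = u'` and the symmetric decompositions of `H` attached to
`(A, I)` and to `(A', I')` coincide: `H(a)_i = H'(a)_i` for all `a` and `i`. -/
theorem result {k k' : Type*} [Field k] [Field k']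
    (J : Ideal (MvPowerSeries (Fin 2) k)) (J' : Ideal (MvPowerSeries (Fin 2) k'))
    (hA : IsArtinianGorensteinLocal (MvPowerSeries (Fin 2) k ⧸ J))
    (hA' : IsArtinianGorensteinLocal (MvPowerSeries (Fin 2) k' ⧸ J'))
    (I : Ideal (MvPowerSeries (Fin 2) k ⧸ J)) (I' : Ideal (MvPowerSeries (Fin 2) k' ⧸ J'))
    {u u' : ℕ} (hu : IsEndDegree I u) (hu' : IsEndDegree I' u')
    (h0 : HF I 0 = 2) (hHF : ∀ i, HF I i = HF I' i) :
    u = u' ∧ ∀ a i, H I u a i = H I' u' a i := by
  obtain ⟨hart, hloc, hsoc⟩ := hA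
  obtain ⟨hart', hloc', hsoc'⟩ := hA'
  obtain ⟨R, hR, hRH, hRn, hRa⟩ :=
    extract (k := k) hsoc residue_quot maximalIdeal_quot hu h0
  obtain ⟨R', hR', hRH', hRn', hRa'⟩ :=
    extract (k := k') hsoc' residue_quot maximalIdeal_quot hu' (by rw [← hHF]; exact h0)
  have heq : ∀ i l, R (2 * i) (2 * l) = R' (2 * i) (2 * l) := by
    apply unique hR hR'
    intro i
    have := hHF i
    rw [hRH, hRH'] at this
    exact_mod_cast this
  have heq0 : ∀ i, R (2 * i) 0 = R' (2 * i) 0 := fun i => heq i 0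
  have hbot : ∀ n, I ^ n = ⊥ ↔ I' ^ n = ⊥ := by
    intro n
    rw [hRn, hRn', heq0]
  have huu : u = u' := by
    rcases lt_trichotomy u u' with h | h | h
    · exfalso
      apply hu'.1
      rw [← hbot]
      have : I ^ u' ≤ I ^ (u + 1) := Ideal.pow_le_pow_right h
      rw [hu.2] at this
      exact le_bot_iff.1 this
    · exact h
    · exfalso
      apply hu.1
      rw [hbot]
      have : I' ^ u ≤ I' ^ (u' + 1) := Ideal.pow_le_pow_right h
      rw [hu'.2] at this
      exact le_bot_iff.1 this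
  subst huu
  refine ⟨rfl, fun a i => ?_⟩
  rw [hRa, hRa']
  simp only [heq, heq0]

end Final

end Pool.Agent.Results.MP_d17b60_al.UniqueDecomposition
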